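import Pool.Agent.Run7.h135.XK.Stm

/-! Project XK (helper135), piece SHQ: the 2-primary part of the Tate-Shafarevich group of `E0` over `ℚ` is trivial. -/

set_option autoImplicit false

namespace Run7.h377.XK

open WeierstrassCurve
open Run7.h135.XK
open Pool.Agent.TH841.SH.D
open Pool.Agent.TH841.SH (IsR)

lemma act_act {k : Type} [Field k] (W : WeierstrassCurve k) {F L L' : Type} [Field F] [Field L]
    [Field L'] [Algebra k F] [Algebra k L] [Algebra k L'] (φ : F →ₐ[k] L) (ψ : L →ₐ[k] L')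
    (P : Pt W F) : act W ψ (act W φ P) = act W (ψ.comp φ) P := by
  rcases P with _ | ⟨x, y, h⟩
  · rfl
  · rfl

/-- coboundaries are locally trivial -/
lemma locTriv_of_cob {k : Type} [Field k] {W : WeierstrassCurve k} (K : Type) [Field K] [Algebra k K]
    {f : Coch W} (hf : IsCob W f) : LocTriv W K f := by
  intro ι
  obtain ⟨P, hP⟩ := hf
  refine ⟨act W ι P, fun τ σ h => ?_⟩
  rw [hP σ, map_sub]
  congr 1
  have h1 : act W ι (act W σ.toAlgHom P) = act W (ι.comp σ.toAlgHom) P :=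
    act_act W σ.toAlgHom ι P
  have h2 : act W (τ.toAlgHom.restrictScalars k) (act W ι P) =
      act W ((τ.toAlgHom.restrictScalars k).comp ι) P :=
    act_act W ι (τ.toAlgHom.restrictScalars k) P
  rw [h1, h2]
  congr 2
  ext x
  exact (h x).symm

lemma isR_E0 (k : Type) [Field k] : IsR (E0 k) 0 9 25 where
  h1 := rfl
  h2 := by show (-34 : k) = _; norm_num
  h3 := rfl
  h4 := by show (225 : k) = _; norm_num
  h6 := by show (0 : k) = _; norm_num

lemma im_of {a b : ℚ} (ha : a ≠ 0) (hb : b ≠ 0) (h1 : IsSquare a ∨ IsSquare (5 * a))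
    (h2 : IsSquare b ∨ IsSquare (-b)) : Im ℚ 0 9 25 a b := by
  rcases h1 with h1 | ⟨s, hs⟩
  · rcases h2 with h2 | ⟨t, ht⟩
    · exact Or.inl ⟨h1, h2⟩
    · obtain ⟨s, hs⟩ := h1
      have ht0 : t ≠ 0 := by rintro rfl; apply hb; linarith
      have hs0 : s ≠ 0 := by rintro rfl; apply ha; linarith
      have hb' : b = -(t * t) := by linarith
      refine Or.inr ⟨0, 0, 3 / t, 5 / (s * t), by ring, ?_, ?_⟩
      · rw [hb']; field_simp; norm_num
      · rw [hb', hs]; field_simp; norm_num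
  · have hs0 : s ≠ 0 := by
      rintro rfl
      apply ha
      linarith
    have ha' : a = s * s / 5 := by linarith
    rcases h2 with ⟨t, ht⟩ | ⟨t, ht⟩
    · have ht0 : t ≠ 0 := by rintro rfl; apply hb; linarith
      refine Or.inr ⟨45, 15 / s, 6 / t, 10 / (s * t), ?_, ?_, ?_⟩
      · rw [ha']; field_simp; norm_num
      · rw [ht]; field_simp; norm_num
      · rw [ha', ht]; field_simp; norm_num
    · have ht0 : t ≠ 0 := by rintro rfl; apply hb; linarith
      have hb' : b = -(t * t) := by linarith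
      refine Or.inr ⟨5, 5 / s, 2 / t, 10 / (s * t), ?_, ?_, ?_⟩
      · rw [ha']; field_simp; norm_num
      · rw [hb']; field_simp; norm_num
      · rw [ha', hb']; field_simp; norm_num

lemma two_step (h1 : S_CAD) (h2 : S_REP) (h3 : S_LTG) (h4 : S_SELQ) (x : Sha (E0 ℚ))
    (hx : 2 • x = 0) : x = 0 := by
  obtain ⟨⟨f, hf⟩, rfl⟩ := QuotientAddGroup.mk_surjective x
  have e01 : (0 : ℚ) ≠ 9 := by norm_num
  have e02 : (0 : ℚ) ≠ 25 := by norm_num
  have e12 : (9 : ℚ) ≠ 25 := by norm_num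
  have hff : IsCob (E0 ℚ) (f + f) := by
    have hx' : (QuotientAddGroup.mk ((⟨f, hf⟩ : shaCoc (E0 ℚ)) + ⟨f, hf⟩) :
        shaCoc (E0 ℚ) ⧸ (cob (E0 ℚ)).addSubgroupOf (shaCoc (E0 ℚ))) = 0 := by
      rw [QuotientAddGroup.mk_add]
      rw [two_nsmul] at hx
      exact hx
    exact (QuotientAddGroup.eq_zero_iff _).1 hx'
  obtain ⟨a, b, ha, hb, hc⟩ := h2 ℚ (E0 ℚ) 0 9 25 (isR_E0 ℚ) e01 e02 e12 f hf.1 hff
  have hC : IsShaCoc (E0 ℚ) (Cc (E0 ℚ) 0 9 a b) := by
    have hcoc := ((h1 ℚ (E0 ℚ) 0 9 25 (isR_E0 ℚ) e01 e02 e12).1 a b ha hb).1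
    have hh : Cc (E0 ℚ) 0 9 a b = f + -(f - Cc (E0 ℚ) 0 9 a b) := by abel
    refine ⟨hcoc, fun p _ => ?_, ?_⟩
    · rw [hh]
      exact loc_add (hf.2.1 p) (loc_neg (locTriv_of_cob _ hc))
    · rw [hh]
      exact loc_add hf.2.2 (loc_neg (locTriv_of_cob _ hc))
  obtain ⟨h5, h6⟩ := h4 a b ha hb hC
  have hI := (h3 ℚ (E0 ℚ) 0 9 25 (isR_E0 ℚ) e01 e02 e12 a b ha hb).2 (im_of ha hb h5 h6)
  have hfc : IsCob (E0 ℚ) f := by
    have hh : f = (f - Cc (E0 ℚ) 0 9 a b) + Cc (E0 ℚ) 0 9 a b := by abel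
    rw [hh]
    exact cob_add hc hI
  exact (QuotientAddGroup.eq_zero_iff (⟨f, hf⟩ : shaCoc (E0 ℚ))).2 hfc

theorem t_SHQ (h1 : S_CAD) (h2 : S_REP) (h3 : S_LTG) (h4 : S_SELQ) : S_SHQ := by
  intro k
  induction k with
  | zero =>
    intro x hx
    rwa [pow_zero, one_nsmul] at hx
  | succ k ih =>
    intro x hx
    rw [pow_succ, mul_nsmul] at hx
    exact ih x (two_step h1 h2 h3 h4 _ hx)

end Run7.h377.XK
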